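import Pool.Agent.T9h88.IP.PE

/-!
# Several levels: the last level
-/

set_option autoImplicit false

namespace Pool.Agent.T9h88.IP

open Pool.Agent.TH672 (Fm Str upd num digits varStr LogK Pv)
open Pool.Agent.TH636.BC
open Pool.Agent.T9h6.BC (sz cl)
open Pool.Agent.T9h88.IO
open Pool.Agent.TH197.J1545 (sat_proves code_inj digits_num strs_cons)

attribute [local irreducible] Pool.Agent.TH636.BC.inst Pool.Agent.TH636.BC.code

variable {A₀ : List Fml} {P : Fml} {κ b L : ℕ}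

theorem clsB_cls3 {c : Cl} (h : c ∈ clsB P κ) : c ∈ cls3 P κ b L := List.mem_append_left _ h

/-- consistency climbs up the chain -/
theorem Parts3.climb (h : Parts3 A₀ P κ b L) {ι : Type} (Γ : ι → List Fml) (D : ι → CD)
    (jj : ι → ℕ) (hΓ : ∀ i, ∀ c ∈ cls3 P κ b L, c.fm ∈ Γ i)
    (h0 : PP Γ (fun i => (D i).L) fun i => (D i).χ.imp
      (n2 iC (vU A₀ P κ b L 0 []) (tw (jj i + 1) b))) {l : ℕ} {ρ : List Ent}
    (hc : Chain A₀ P κ b L l ρ) :
    (∀ i, ∀ e ∈ ρ, e.ax ∈ Γ i) → (∀ i, tw (jj i + 1) (b + l) ≤ (D i).M) →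
    (∀ i, bd P ρ ≤ jj i) →
    PP Γ (fun i => (D i).L) fun i => (D i).χ.imp
      (n2 iC (vU A₀ P κ b L l ρ) (tw (jj i + 1) (b + l))) := by
  obtain ⟨w1, w2, w3, w4, w5, w6⟩ := h.gc
  induction hc with
  | zero => exact fun _ _ _ => h0
  | @succ l ρ m hc' hl hcons ih =>
    intro hax hM hbd
    set e : Ent := eU A₀ P κ b L l ρ m with he
    have hbd' : ∀ i, e.v + e.i + e.m + e.z + fT P e.z ≤ jj i := fun i =>
      (le_bd (List.mem_cons_self ..)).trans (hbd i)
    have hbd2 : ∀ i, bd P ρ ≤ jj i := fun i => by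
      have := hbd i
      simp only [bd, List.map_cons, List.sum_cons] at this ⊢
      omega
    have hjM : ∀ i, jj i + 1 ≤ (D i).M := fun i => (w4 (jj i + 1) (b + (l + 1))).trans (hM i)
    have hM2 : ∀ i, tw (jj i + 1) (b + l) ≤ (D i).M := fun i =>
      (w5 _ _ _ (by omega)).trans (hM i)
    have ih' := ih (fun i e' he' => hax i e' (List.mem_cons_of_mem _ he')) hM2 hbd2
    have hOk := (h.w3 A₀ P κ b L h.tru h.num).1
    have hlt : ∀ i a, a ≤ (D i).M → a < (D i).L := fun i a ha => ha.trans_lt (D i).h.numlt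
    have hev : e.v = vU A₀ P κ b L l ρ := rfl
    have hei : e.i = l := rfl
    have hv' : vU A₀ P κ b L (l + 1) (e :: ρ) = fT P e.z := code_ThUUe m
    have bv : ∀ i, e.v ≤ (D i).M := fun i => by have := hbd' i; have := hjM i; omega
    have bi : ∀ i, e.i ≤ (D i).M := fun i => by have := hbd' i; have := hjM i; omega
    have bz : ∀ i, e.z ≤ (D i).M := fun i => by have := hbd' i; have := hjM i; omega
    have bt : ∀ i, fT P e.z ≤ (D i).M := fun i => by have := hbd' i; have := hjM i; omega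
    have nums := fun i => h.nums h.str P κ (cls3 P κ b L) (D i).N (D i).ν (D i).M (D i).K
      (fun _ hc => clsB_cls3 hc) (D i).h
    have f8 := fun (i : ι) (N' : List At) (hN' : ∀ p ∈ (D i).N, p ∈ N') =>
      h.w8 h.str h.nums P κ b L (cls3 P κ b L) (D i).N N' (D i).ν (D i).M (D i).K
      (fun _ hc => hc) (D i).h hN'
    have ut := h.use (Γ := Γ) (D := D) e (fun i => hax i e (List.mem_cons_self ..)) fun i => by
      have := hbd' i; have := hjM i; omega
    rw [hv']
    refine PP.derE h.eng h.names hOk hΓ [fun _ => trAt e, fun i => o2 iC (vU A₀ P κ b L l ρ)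
      (tw (jj i + 1) (b + l))] ?_ ?_ (fun i => o2 iC (fT P e.z) (tw (jj i + 1) (b + (l + 1))))
      fun i => ?_
    · intro a ha i
      simp only [List.mem_cons, List.not_mem_nil, or_false] at ha
      rcases ha with rfl | rfl
      · exact ⟨hlt i _ (bv i), hlt i _ (bi i), hlt i _ (bz i), hlt i _ (bz i)⟩
      · exact ⟨hlt i _ (hev ▸ bv i), hlt i _ (hM2 i), hlt i _ (hM2 i), hlt i _ (hM2 i)⟩
    · intro a ha
      simp only [List.mem_cons, List.not_mem_nil, or_false] at ha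
      rcases ha with rfl | rfl
      · exact ut
      · exact ih'
    · have hm : (⟨[o3 iTr 0 1 2, o2 iD2 2 3, o3 iPG 1 4 5, o2 iLe 3 4, o2 iC 0 5],
          o2 iC 3 4⟩ : Cl) ∈ cls3 P κ b L := List.mem_append_right _ (by simp [cl3])
      have g1 : Der (cls3 P κ b L) (D i).N (D i).N.length (o2 iD2 e.z (fT P e.z)) :=
        (nums i).2.1 e.z (bt i)
      have g2 : Der (cls3 P κ b L) (D i).N (D i).N.length (o2 iLe (fT P e.z)
          (tw (jj i + 1) (b + (l + 1)))) :=
        (nums i).2.2.2.2.2.2.1 _ _ (by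
          have := hbd' i
          have := w4 (jj i + 1) (b + (l + 1))
          omega) (hM i)
      have g3 : Der (cls3 P κ b L) (D i).N (D i).N.length (o3 iPG e.i
          (tw (jj i + 1) (b + (l + 1))) (tw (jj i + 1) (b + l))) :=
        (f8 i (D i).N fun _ hp => hp).1 (jj i + 1) l (hM i)
      have mo : ∀ {q : At}, Der (cls3 P κ b L) (D i).N (D i).N.length q →
          Der (cls3 P κ b L) ([fun _ => trAt e, fun i => o2 iC (vU A₀ P κ b L l ρ)
            (tw (jj i + 1) (b + l))].map (fun a : ι → At => a i) ++ (D i).N)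
            (D i).N.length q := fun hq =>
        hq.mono (fun _ hc => hc) (fun _ ha => List.mem_append_right _ ha) le_rfl
      have e1 := Der.step' (N := [fun _ => trAt e, fun i => o2 iC (vU A₀ P κ b L l ρ)
            (tw (jj i + 1) (b + l))].map (fun a : ι → At => a i) ++ (D i).N)
        (M := (D i).N.length) _ 0
        [e.v, e.i, e.z, fT P e.z, tw (jj i + 1) (b + (l + 1)), tw (jj i + 1) (b + l)] hm
        (Nat.zero_lt_of_lt (D i).h.numlt) (by
          intro y hy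
          simp only [List.mem_cons, List.not_mem_nil, or_false] at hy
          rcases hy with rfl | rfl | rfl | rfl | rfl | rfl
          · exact hlt i _ (bv i)
          · exact hlt i _ (bi i)
          · exact hlt i _ (bz i)
          · exact hlt i _ (bt i)
          · exact hlt i _ (hM i)
          · exact hlt i _ (hM2 i)) (by
          intro p hp
          simp only [List.mem_cons, List.not_mem_nil, or_false] at hp
          rcases hp with rfl | rfl | rfl | rfl | rfl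
          · exact .base (List.mem_append_left _ (List.mem_cons_self ..))
          · exact mo g1
          · exact mo g3
          · exact mo g2
          · exact .base (List.mem_append_left _ (List.mem_cons_of_mem _
              (List.mem_cons_self ..))))
      exact e1

/-- the case of a chain of full length -/
theorem Parts3.fin (h : Parts3 A₀ P κ b L) {ρ : List Ent} (hc : Chain A₀ P κ b L L ρ) (N : ℕ) :
    ∃ j ≥ N, ∀ n ≤ tw j (b + L - 1), Proves (UU A₀ P κ b L L ρ) (tw j (b + L - 1 + 3))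
      (conAt P (Th P (UU A₀ P κ b L L ρ)) n) := by
  obtain ⟨C₀, hBF⟩ := h.bf h.run h.all h.str
  obtain ⟨w1, w2, w3, w4, w5, w6⟩ := h.gc
  have hb2 := h.b2
  obtain ⟨a, ha⟩ : ∃ a, b + L = a + 1 := ⟨b + L - 1, by omega⟩
  have ha1 : 1 ≤ a := by omega
  set v := vU A₀ P κ b L L ρ with hv
  set v₀ := vU A₀ P κ b L 0 [] with hv₀
  set G := UU A₀ P κ b L L ρ with hG
  have hcode : code (Th P G) = v := rfl
  let nn : ℕ → ℕ := fun j => 2 ^ (tw j (a + 1) / 4)
  have hpw : ∀ j ≥ 2, nn j ^ 4 = tw (j + 1) (a + 1) := fun j hj => w1 j hj (a + 1) (by omega)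
  have htn : ∀ j ≥ 2, tw (j + 1) a ≤ nn j := fun j hj => by
    have e : tw (j + 1) a = 2 ^ tw j a := by
      simp only [tw, Function.iterate_succ_apply']
    rw [e]
    exact Nat.pow_le_pow_right (by norm_num) (w2 j hj a ha1)
  have hjn : ∀ j ≥ 2, j + 1 ≤ nn j := fun j hj => (w4 (j + 1) a).trans (htn j hj)
  -- the parameters
  let c₀ := v + v₀ + κ + bd P ρ + 2
  let ι := {p : ℕ × ℕ // c₀ ≤ p.1 ∧ v ≤ p.2 ∧ p.2 ≤ nn p.1}
  have hj2 : ∀ i : ι, 2 ≤ i.1.1 := fun i => by have := i.2.1; omega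
  let D : ι → CD := fun i =>
    ⟨(h.names.1 (tw (i.1.1 + 1) (a + 1)) (pb C₀ (v₀ + tw (i.1.1 + 1) b))).choose,
     (h.names.1 (tw (i.1.1 + 1) (a + 1)) (pb C₀ (v₀ + tw (i.1.1 + 1) b))).choose_spec.choose,
     _, _,
     (h.names.1 (tw (i.1.1 + 1) (a + 1))
        (pb C₀ (v₀ + tw (i.1.1 + 1) b))).choose_spec.choose_spec⟩
  have hDM : ∀ i, (D i).M = tw (i.1.1 + 1) (a + 1) := fun _ => rfl
  have hDK : ∀ i, (D i).K = pb C₀ (v₀ + tw (i.1.1 + 1) b) := fun _ => rfl
  have hjM : ∀ i, i.1.1 + 1 ≤ (D i).M := fun i => w4 (i.1.1 + 1) (a + 1)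
  have bv : ∀ i, v ≤ (D i).M := fun i => by have := i.2.1; have := hjM i; omega
  have bv₀ : ∀ i, v₀ ≤ (D i).M := fun i => by have := i.2.1; have := hjM i; omega
  have bnn : ∀ i : ι, nn i.1.1 ≤ (D i).M := fun i => by
    rw [hDM, ← hpw _ (hj2 i)]
    exact Nat.le_self_pow (by norm_num) _
  have bn : ∀ i : ι, i.1.2 ≤ (D i).M := fun i => i.2.2.2.trans (bnn i)
  have bb : ∀ i : ι, tw (i.1.1 + 1) b ≤ (D i).M := fun i => by
    rw [hDM]; exact w5 _ _ _ (by omega)
  have hOk := (h.w3 A₀ P κ b L h.tru h.num).1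
  have hΓ : ∀ _ : ι, ∀ c ∈ cls3 P κ b L, c.fm ∈ G := fun _ c hc => cls_UU hc
  have nums := fun i => h.nums h.str P κ (cls3 P κ b L) (D i).N (D i).ν (D i).M (D i).K
      (fun _ hc => clsB_cls3 hc) (D i).h
  have f4 : ∀ i : ι, Der (cls3 P κ b L) (D i).N (D i).N.length
      (o2 iC v₀ (tw (i.1.1 + 1) b)) := fun i =>
    hBF P κ (cls3 P κ b L) (D i).N (D i).ν (D i).M (D i).K (fun _ hc => clsB_cls3 hc) (D i).h
      (Th P (UU A₀ P κ b L 0 [])) (tw (i.1.1 + 1) b)
      (noRef_of_cons h.proof (h.cons .zero) _) (bv₀ i) (bb i) le_rfl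
  have f5 : ∀ i : ι, Der (cls3 P κ b L) (D i).N (D i).N.length
      (o2 iLk i.1.2 (tw (i.1.1 + 1) (a + 1))) := fun i => by
    have := (nums i).2.2.2.2.2.2.2 i.1.2 (nn i.1.1)
      (by have := hjn _ (hj2 i); have := i.2.1; omega) i.2.2.2 (hpw _ (hj2 i)).le
    rwa [hpw _ (hj2 i)] at this
  have f6 : ∀ i : ι, Der (cls3 P κ b L) (D i).N (D i).N.length
      (o2 iLe v i.1.2) := fun i =>
    (nums i).2.2.2.2.2.2.1 _ _ i.2.2.1 (bn i)
  have g4 : PP (fun _ : ι => G) (fun i => (D i).L) fun i => (D i).χ.imp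
      (n2 iC v₀ (tw (i.1.1 + 1) b)) :=
    PP.der h.eng h.names hOk hΓ _ f4
  have g5 : PP (fun _ : ι => G) (fun i => (D i).L) fun i => (D i).χ.imp
      (n2 iLk i.1.2 (tw (i.1.1 + 1) (a + 1))) :=
    PP.der h.eng h.names hOk hΓ _ f5
  have g6 : PP (fun _ : ι => G) (fun i => (D i).L) fun i => (D i).χ.imp
      (n2 iLe v i.1.2) :=
    PP.der h.eng h.names hOk hΓ _ f6
  have g7 := h.climb (fun _ : ι => G) D (fun i => i.1.1) hΓ g4 hc
    (fun _ e he => ax_UU he) (fun i => by rw [ha])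
    (fun i => by have := i.2.1; omega)
  rw [ha] at g7
  have fin := h.lnk (fun _ : ι => G) (fun _ => Th P G) D P
    (fun i => i.1.2) (fun i => tw (i.1.1 + 1) (a + 1)) h.num (fun _ _ hψ => rob_UU hψ)
    (fun _ _ hψ => ex_UU hψ) (fun _ => link_UU) bv bn (fun _ => le_rfl) g6 g5 g7
  obtain ⟨C, hC⟩ := fin
  obtain ⟨c₁, hc₁⟩ := conAt_small' h.num ((h.w3 A₀ P κ b L h.tru h.num).2.2 (Th P G)).2
    (h.cons hc) (A := G) (fun _ hψ => rob_UU hψ) v
  obtain ⟨j₀, hj⟩ := h.gb C₀ C b L v₀ h.bL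
  let j := j₀ + c₀ + c₁ + N
  have hsz := hj j (by omega)
  have ea : b + L - 1 = a := by omega
  rw [ea]
  refine ⟨j + 1, by omega, fun n hn => ?_⟩
  by_cases hnt : n < v
  · refine (hc₁ n hnt).mono ?_
    have := w4 (j + 1) (a + 3)
    omega
  · let i₀ : ι := ⟨(j, n), by omega, by omega, hn.trans (htn j (by omega))⟩
    refine (hC i₀).mono ((pb_le le_rfl (D i₀).h.len).trans ?_)
    rw [ha] at hsz
    have e4 : (D i₀).M = tw (j + 1) (a + 1) := rfl
    have e5 : (D i₀).K = pb C₀ (v₀ + tw (j + 1) b) := rfl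
    rw [e4, e5]
    exact hsz

end Pool.Agent.T9h88.IP
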