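import Pool.Agent.T9h88.IP.Spec
import Pool.Agent.T9h88.IO.Case2

/-!
# Several levels: codes
-/

set_option autoImplicit false

namespace Pool.Agent.T9h88.IP

open Pool.Agent.TH672 (Fm Str upd num digits varStr LogK Pv)
open Pool.Agent.TH636.BC
open Pool.Agent.T9h6.BC (sz cl)
open Pool.Agent.T9h88.IO
open Pool.Agent.TH197.J1545 (sat_proves code_inj digits_num strs_cons)

variable {A₀ : List Fml} {P : Fml} {κ b L l : ℕ} {ρ : List Ent}

theorem digits_code (Δ : List Fml) : digits (code Δ) = strs Δ := digits_num _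

theorem code_Th (P : Fml) (Δ : List Fml) :
    code (Th P Δ) = num (s1 ++ rep (code Δ) ++ s2 P ++ strs Δ) := by
  have e : str (conAll P Δ) = s1 ++ rep (code Δ) ++ s2 P := by
    have : str (conAll P Δ) = [true, false, false, false] ++ varStr 3 ++
        str (inst 2 (code Δ) (off P)) := rfl
    rw [this, str_inst', s1, s2]
    simp only [List.append_assoc]
  rw [code, Th, strs_cons, e]

theorem code_Th_of {Δ : List Fml} {z : ℕ} (h : code Δ = fA z) : code (Th P Δ) = fT P z := by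
  have h2 : strs Δ = digits (fA z) := by rw [← h, digits_code]
  rw [code_Th, fT, h, h2]

theorem code_inst29 (z : ℕ) (φ : Fml) (Δ : List Fml) (h : z = code (φ :: Δ)) :
    code (inst 29 z φ :: Δ) = fA z := by
  have h2 : digits z = str φ ++ strs Δ := by rw [h, digits_code, strs_cons]
  rw [fA, h2, code, strs_cons, str_inst']
  simp only [List.append_assoc]

theorem code_UU : code (UU A₀ P κ b L l ρ) = gd P L (w0 A₀ P κ b L) l ρ := by
  have e : UU A₀ P κ b L l ρ = (ρ.map Ent.ax ++ [Jl P L l]) ++ base A₀ P κ b L := by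
    rw [UU, List.append_assoc]; rfl
  have e2 : ∀ a c : List Fml, strs (a ++ c) = strs a ++ strs c := fun a c => by
    simp [strs]
  rw [e, gd, w0, digits_code, ← e2, code]

theorem w0_eq : w0 A₀ P κ b L = fA (z0 A₀ P κ b L) := code_inst29 _ _ _ rfl

theorem code_UUe (m : ℕ) : code (UU A₀ P κ b L (l + 1) (eU A₀ P κ b L l ρ m :: ρ)) =
    fA (zU A₀ P κ b L l ρ m) := code_inst29 _ _ _ rfl

theorem code_ThUUe (m : ℕ) : code (Th P (UU A₀ P κ b L (l + 1) (eU A₀ P κ b L l ρ m :: ρ))) =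
    fT P (zU A₀ P κ b L l ρ m) := code_Th_of (code_UUe m)

theorem le_zU (m : ℕ) : m ≤ zU A₀ P κ b L l ρ m := by
  rw [zU, code, strs_cons, str_inst']
  refine le_trans ?_ (length_le_num _)
  have := rep_len m
  simp only [List.length_append]
  omega

theorem sub_UUe (e : Ent) {ψ : Fml} (h : ψ ∈ UU A₀ P κ b L (l + 1) (e :: ρ)) :
    ψ = e.ax ∨ ψ = Jl P L (l + 1) ∨ ψ ∈ UU A₀ P κ b L l ρ := by
  simp only [UU, List.map_cons, List.cons_append, List.mem_cons, List.mem_append] at h ⊢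
  tauto

theorem base_UU {ψ : Fml} (h : ψ ∈ base A₀ P κ b L) : ψ ∈ UU A₀ P κ b L l ρ := by
  simp only [UU, List.mem_append, List.mem_cons]; exact .inr (.inr h)

theorem base'_UU {ψ : Fml} (h : ψ ∈ base' A₀ P κ b L) : ψ ∈ UU A₀ P κ b L l ρ :=
  base_UU (List.mem_cons_of_mem _ h)

theorem gam_UU : γγ A₀ P κ b L ∈ UU A₀ P κ b L l ρ := base_UU (List.mem_cons_self ..)

theorem Jl_UU : Jl P L l ∈ UU A₀ P κ b L l ρ := by
  simp only [UU, List.mem_append, List.mem_cons]; exact .inr (.inl trivial)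

theorem ax_UU {e : Ent} (h : e ∈ ρ) : e.ax ∈ UU A₀ P κ b L l ρ := by
  simp only [UU, List.mem_append, List.mem_cons]; exact .inl (List.mem_map_of_mem h)

theorem A0_UU {ψ : Fml} (h : ψ ∈ A₀) : ψ ∈ UU A₀ P κ b L l ρ :=
  base'_UU (List.mem_append_left _ h)

theorem rob_UU {ψ : Fml} (h : ψ ∈ robinson) : ψ ∈ UU A₀ P κ b L l ρ :=
  base'_UU (by simp only [base', List.mem_append]; exact .inr (.inl (.inl h)))

theorem ex_UU {ψ : Fml} (h : ψ ∈ ExAx) : ψ ∈ UU A₀ P κ b L l ρ :=
  base'_UU (by simp only [base', List.mem_append]; exact .inr (.inl (.inr h)))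

theorem link_UU : link P ∈ UU A₀ P κ b L l ρ :=
  base'_UU (List.mem_append_right _ (List.mem_append_right _ (List.mem_cons_self ..)))

theorem ax3_UU : Ax3 ∈ UU A₀ P κ b L l ρ :=
  base'_UU (List.mem_append_right _ (List.mem_append_right _ (List.mem_cons_of_mem _
    (List.mem_cons_self ..))))

theorem cls_UU {c : Cl} (h : c ∈ cls3 P κ b L) : c.fm ∈ UU A₀ P κ b L l ρ :=
  base'_UU (by
    simp only [base', List.mem_append, List.mem_cons]
    exact .inr (.inr (.inr (.inr (List.mem_map_of_mem h)))))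

end Pool.Agent.T9h88.IP
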