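import Pool.Agent.T9h88.IO.Asm2

/-!
# Several levels: definitions
-/

set_option autoImplicit false

namespace Pool.Agent.T9h88.IP

open Pool.Agent.TH672 (Fm Str upd num digits varStr LogK Pv)
open Pool.Agent.TH636.BC
open Pool.Agent.T9h6.BC (sz cl)
open Pool.Agent.T9h88.IO

/-! ### Symbols -/

/-- `c = fI 26 a b` -/
def iI26 : ℕ := 38
/-- `c = fI 27 a b` -/
def iI27 : ℕ := 39
/-- `c = fI 28 a b` -/
def iI28 : ℕ := 40
/-- `c = fI 29 a b` -/
def iI29 : ℕ := 41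
/-- `a` is the code of the base theory -/
def iGB : ℕ := 42
/-- `b` is the code of a theory that consists of true axioms `tr`, the axiom `Jl a` and the base
theory -/
def iGd : ℕ := 43
/-- the theory with the code `a` is trusted at the level `b` by the theory given by `c` -/
def iTr : ℕ := 44
/-- `b = tw j (b₀ + a + 1)`, `c = tw j (b₀ + a)` for some `j` -/
def iPG : ℕ := 45
/-- `b = tw j (b₀ + a + 1)`, `c = tw (j + 1) (b₀ + a + 1)` for some `j` -/
def iPS : ℕ := 46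

/-- the number of the string of `inst x a φ :: Δ` if `b` is the number of the string of `φ :: Δ` -/
def fI (x a b : ℕ) : ℕ := num (hd ++ rep a ++ tlx x ++ digits b)

/-- the atomic formula for trust: `v` is the variable `27`, the level is the variable `26`, `z` is
the variable `29` -/
def θ1 : Fml := (o3 iTr 27 26 29).fm

/-- an axiom of trust with the parameters `v`, the level `i`, a dummy `m`, and `z` -/
def tr (v i m z : ℕ) : Fml := inst 29 z (inst 28 m (inst 27 v (inst 26 i θ1)))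

/-- the parameters of an axiom of trust -/
structure Ent where
  v : ℕ
  i : ℕ
  m : ℕ
  z : ℕ

/-- the axiom of trust -/
def Ent.ax (e : Ent) : Fml := tr e.v e.i e.m e.z

/-- the meaning of the axiom of trust -/
def Trust (P : Fml) (b v i z : ℕ) : Prop := ∀ j, fT P z ≤ tw j (b + i + 1) →
  NoRef v (tw j (b + i)) → NoRef (fT P z) (tw j (b + i + 1))

/-- for all `l'` with `26 < l' ≤ L` and all codes `2` of theories with true axioms of trust,
`Jl l'` and the base theory: the theory is consistent -/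
def JJ (P : Fml) (L : ℕ) : Fml := .all 24 (.all 25 (.all 2 (.imp (o1 (iK L) 24).fm
  (.imp (o2 iLt 26 25).fm (.imp (o2 iLe 25 24).fm (.imp (o2 iGd 25 2).fm (.all 3 (off P))))))))

/-- the axiom for the level `l` -/
def Jl (P : Fml) (L l : ℕ) : Fml := inst 26 l (JJ P L)

/-- the number of the string of the list of the axioms of trust, the axiom `Jl l` and the theory
with the code `w₀` -/
def gd (P : Fml) (L w₀ l : ℕ) (ρ : List Ent) : ℕ :=
  num (strs (ρ.map Ent.ax ++ [Jl P L l]) ++ digits w₀)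

/-- the interpretation of the symbols -/
def I3 (P : Fml) (κ b L w₀ : ℕ) (i x y z t : ℕ) : Prop :=
  match i with
  | 38 => z = fI 26 x y
  | 39 => z = fI 27 x y
  | 40 => z = fI 28 x y
  | 41 => z = fI 29 x y
  | 42 => x = w₀
  | 43 => ∃ ρ : List Ent, (∀ e ∈ ρ, Trust P b e.v e.i e.z) ∧ y = gd P L w₀ x ρ
  | 44 => Trust P b x y z
  | 45 => ∃ j, y = tw j (b + x + 1) ∧ z = tw j (b + x)
  | 46 => ∃ j, y = tw j (b + x + 1) ∧ z = tw (j + 1) (b + x + 1)
  | i => I P [] κ i x y z t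

/-- the standard model -/
def Std3 (P : Fml) (κ b L w₀ : ℕ) : Str ℕ where
  M := ℕ
  ne := ⟨0⟩
  zero x := x = 0
  succ x y := y = x + 1
  add x y z := z = x + y
  mul x y z := z = x * y
  op i x y z t := I3 P κ b L w₀ i x y z t

/-- truth of an atom in the standard model -/
def Tr3 (P : Fml) (κ b L w₀ : ℕ) (v : ℕ → ℕ) : At → Prop
  | .zero x => v x = 0
  | .succ x y => v y = v x + 1
  | .add x y z => v z = v x + v y
  | .mul x y z => v z = v x * v y
  | .op i x y z t => I3 P κ b L w₀ i (v x) (v y) (v z) (v t)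

/-- truth of a clause in the standard model -/
def ClTr3 (P : Fml) (κ b L w₀ : ℕ) (c : Cl) : Prop :=
  ∀ v : ℕ → ℕ, (∀ p ∈ c.prem, Tr3 P κ b L w₀ v p) → Tr3 P κ b L w₀ v c.concl

/-! ### Clauses and theories -/

/-- the new clauses -/
def cl3 (P : Fml) (b L : ℕ) : List Cl := [
  ⟨[.zero 0, o2 (iApp hd) 0 1, o3 iRep 2 1 3, o2 (iApp (tlx 26)) 3 4, o3 iCat 4 5 6],
    o3 iI26 2 5 6⟩,
  ⟨[.zero 0, o2 (iApp hd) 0 1, o3 iRep 2 1 3, o2 (iApp (tlx 27)) 3 4, o3 iCat 4 5 6],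
    o3 iI27 2 5 6⟩,
  ⟨[.zero 0, o2 (iApp hd) 0 1, o3 iRep 2 1 3, o2 (iApp (tlx 28)) 3 4, o3 iCat 4 5 6],
    o3 iI28 2 5 6⟩,
  ⟨[.zero 0, o2 (iApp hd) 0 1, o3 iRep 2 1 3, o2 (iApp (tlx 29)) 3 4, o3 iCat 4 5 6],
    o3 iI29 2 5 6⟩,
  ⟨[o1 iGB 0, .zero 1, o2 (iApp (str (JJ P L))) 1 2, o3 iCat 2 0 3, o3 iI26 4 3 5],
    o2 iGd 4 5⟩,
  ⟨[o2 iGd 0 1, o3 iTr 2 3 4, .zero 5, o2 (iApp (str θ1)) 5 6, o3 iCat 6 1 7, o3 iI26 3 7 8,
    o3 iI27 2 8 9, o3 iI28 10 9 11, o3 iI29 4 11 12], o2 iGd 0 12⟩,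
  ⟨[o1 (iK b) 0, .add 0 1 2, .succ 2 3, o3 iIt 4 3 5, o3 iIt 4 2 6], o3 iPG 1 5 6⟩,
  ⟨[o1 (iK b) 0, .add 0 1 2, .succ 2 3, o3 iIt 4 3 5, .succ 4 6, o3 iIt 6 3 7], o3 iPS 1 5 7⟩,
  ⟨[o3 iTr 0 1 2, o2 iD2 2 3, o3 iPG 1 4 5, o2 iLe 3 4, o2 iC 0 5], o2 iC 3 4⟩,
  ⟨[.succ 0 1, o2 iLt 1 2], o2 iLt 0 2⟩] ++
  kCl b ++ kCl L ++
  [str (JJ P L), tlx 26, tlx 27, tlx 28, str θ1].flatMap appCl

/-- all clauses -/
def cls3 (P : Fml) (κ b L : ℕ) : List Cl := clsB P κ ++ cl3 P b L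

/-- the axiom about failing trust -/
def Ax3 : Fml := .all 27 (.all 26 (.all 29 (.all 2 (.all 6 (.all 7 (.all 8
  (.imp (o2 iD2 29 2).fm (.imp (o3 iPS 26 6 7).fm (.imp (o3 iPG 26 7 8).fm
    (.imp (o2 iOk2 2 6).fm (.imp θ1.neg (o2 iC 27 8).fm)))))))))))

/-- the base theory without the axiom about its code -/
def base' (A₀ : List Fml) (P : Fml) (κ b L : ℕ) : List Fml :=
  A₀ ++ (robinson ++ ExAx ++ link P :: Ax3 :: (cls3 P κ b L).map Cl.fm)

/-- the formula for the axiom about the code of the base theory -/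
def γ0 : Fml := .all 2 (.imp (o2 iAf 29 2).fm (o1 iGB 2).fm)

/-- the number used for the self-reference -/
def z0 (A₀ : List Fml) (P : Fml) (κ b L : ℕ) : ℕ := code (γ0 :: base' A₀ P κ b L)

/-- the axiom about the code of the base theory -/
def γγ (A₀ : List Fml) (P : Fml) (κ b L : ℕ) : Fml := inst 29 (z0 A₀ P κ b L) γ0

/-- the base theory -/
def base (A₀ : List Fml) (P : Fml) (κ b L : ℕ) : List Fml :=
  γγ A₀ P κ b L :: base' A₀ P κ b L

/-- the code of the base theory -/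
def w0 (A₀ : List Fml) (P : Fml) (κ b L : ℕ) : ℕ := code (base A₀ P κ b L)

/-- the theory with the axioms of trust in `ρ` and the level `l` -/
def UU (A₀ : List Fml) (P : Fml) (κ b L l : ℕ) (ρ : List Ent) : List Fml :=
  ρ.map Ent.ax ++ Jl P L l :: base A₀ P κ b L

/-- the code of `UU + Con` -/
def vU (A₀ : List Fml) (P : Fml) (κ b L l : ℕ) (ρ : List Ent) : ℕ :=
  code (Th P (UU A₀ P κ b L l ρ))

/-- the number used for the self-reference of the axiom of trust of the level `l` in the theory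
of the level `l + 1` -/
def zU (A₀ : List Fml) (P : Fml) (κ b L l : ℕ) (ρ : List Ent) (m : ℕ) : ℕ :=
  code (inst 28 m (inst 27 (vU A₀ P κ b L l ρ) (inst 26 l θ1)) :: UU A₀ P κ b L (l + 1) ρ)

/-- the parameters of the new axiom of trust -/
def eU (A₀ : List Fml) (P : Fml) (κ b L l : ℕ) (ρ : List Ent) (m : ℕ) : Ent :=
  ⟨vU A₀ P κ b L l ρ, l, m, zU A₀ P κ b L l ρ m⟩

/-- the chains of theories -/
inductive Chain (A₀ : List Fml) (P : Fml) (κ b L : ℕ) : ℕ → List Ent → Prop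
  | zero : Chain A₀ P κ b L 0 []
  | succ {l : ℕ} {ρ : List Ent} (m : ℕ) : Chain A₀ P κ b L l ρ → l < L →
      (∀ k, ¬ Proves (Th P (UU A₀ P κ b L (l + 1) (eU A₀ P κ b L l ρ m :: ρ))) k Fm.bot) →
      Chain A₀ P κ b L (l + 1) (eU A₀ P κ b L l ρ m :: ρ)

end Pool.Agent.T9h88.IP
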