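import Pool.Agent.T9h88.IP.Step
import Pool.Agent.T9h18.IP.W2
import Pool.Agent.T9h75.IP.V3
import Pool.Agent.T9h85.IP.W3
import Pool.Agent.T9h58.IP.W4
import Pool.Agent.T9h58.IP.W5
import Pool.Agent.T9h46.IP.W6
import Pool.Agent.T9h80.IP.W7
import Pool.Agent.T9h80.IP.ALink
import Pool.Agent.T9h67.IP.W8
import Pool.Agent.T9h67.IP.W9
import Pool.Agent.T9h84.IP.W10
import Pool.Agent.T9h73.IO.Ded
import Pool.Agent.T9h73.IO.VTree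
import Pool.Agent.T9h89.IO.VStr
import Pool.Agent.T9h58.IO.Str
import Pool.Agent.T9h71.IO.Engine
import Pool.Agent.T9h71.IO.BF
import Pool.Agent.T9h85.IO.SProof
import Pool.Agent.T9h18.IO.Script
import Pool.Agent.T9h96.IO.Run
import Pool.Agent.T9h75.IO.VNum
import Pool.Agent.T9h67.IO.Num
import Pool.Agent.T9h46.IO.SAll
import Pool.Agent.T9h46.IO.VAll

/-!
# Several levels: the theorem
-/

set_option autoImplicit false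

namespace Pool.Agent.T9h88.IP

open Pool.Agent.TH672 (Fm Str upd num digits varStr LogK Pv)
open Pool.Agent.TH636.BC
open Pool.Agent.T9h88.IO

theorem v3 : V3 :=
  Pool.Agent.T9h75.IP.w1 Pool.Agent.T9h73.IO.vTree Pool.Agent.T9h46.IO.vAll
    Pool.Agent.T9h89.IO.vStr Pool.Agent.T9h75.IO.vNum

theorem parts3 {A₀ : List Fml} {P : Fml} {κ b L : ℕ} (hP : Numerates P) (hA : TrueSent A₀)
    (hκ : ScriptC κ) (hL : 2 ^ (b + 1) ≤ b + L) (hb : 2 ≤ b) :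
    Parts3 A₀ P (4 * κ) b L where
  num := hP
  tru := hA
  bL := hL
  b2 := hb
  ded := Pool.Agent.T9h73.IO.sDed
  eng := Pool.Agent.T9h71.IO.sEngine
  elim := Pool.Agent.T9h80.IO.sElim
  names := Pool.Agent.T9h80.IO.sNames
  run := Pool.Agent.T9h96.IO.sRun
  all := Pool.Agent.T9h46.IO.sAll
  str := Pool.Agent.T9h58.IO.sStr
  nums := Pool.Agent.T9h67.IO.sNum
  proof := Pool.Agent.T9h85.IO.sProof
  script := Pool.Agent.T9h18.IO.sScript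
  bf := Pool.Agent.T9h71.IO.mBF
  lnk := Pool.Agent.T9h80.IP.aLink
  w3 := Pool.Agent.T9h85.IP.w3
  w4 := Pool.Agent.T9h58.IP.w4
  w5 := Pool.Agent.T9h58.IP.w5
  w6 := Pool.Agent.T9h46.IP.w6
  w7 := Pool.Agent.T9h80.IP.w7
  w8 := Pool.Agent.T9h67.IP.w8
  w9 := Pool.Agent.T9h67.IP.w9
  ga := Pool.Agent.T9h84.IP.growA
  gb := Pool.Agent.T9h84.IP.growB
  gc := Pool.Agent.T9h84.IP.growC
  tr3 := fun l ρ hl hρ => Pool.Agent.T9h18.IP.w2 v3 A₀ P κ b L l ρ hA hP hκ hl hρ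

/-- the theory is true in an expansion of the standard model of arithmetic -/
def SoundX (A : List Fml) : Prop := ∃ I : ℕ → ℕ → ℕ → ℕ → ℕ → Prop, ∀ ψ ∈ A, ∀ v : ℕ → ℕ,
  Fm.Sat (⟨ℕ, ⟨0⟩, fun x => x = 0, fun x y => y = x + 1, fun x y z => z = x + y,
    fun x y z => z = x * y, I⟩ : Str ℕ) ψ v

theorem main3 {A₀ : List Fml} {P : Fml} (hP : Numerates P) (hA : TrueSent A₀) (b : ℕ) :
    ∃ A : List Fml, (∀ ψ ∈ robinson, ψ ∈ A) ∧ (∀ ψ ∈ A₀, ψ ∈ A) ∧ (∀ ψ ∈ A, ψ.Closed) ∧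
      SoundX (Th P A) ∧ (∀ k, ¬ Proves (Th P A) k Fm.bot) ∧
      ∃ a ≥ b, ∀ N : ℕ, ∃ j ≥ N, ∀ n ≤ tw j a, Proves A (tw j (a + 3)) (conAt P (Th P A) n) := by
  obtain ⟨κ, hκ⟩ := Pool.Agent.T9h18.IO.sScript
  have h : Parts3 A₀ P (4 * κ) (b + 2) (2 ^ (b + 2 + 1)) :=
    parts3 hP hA hκ (Nat.le_add_left _ _) (by omega)
  obtain ⟨a, l, ρ, h1, h2, h3⟩ := h.main
  have h4 := h.trust h2
  have h5 := h.tr3 l ρ h4.1 h4.2
  have h6 : ∀ k, ¬ Proves (UU A₀ P (4 * κ) (b + 2) (2 ^ (b + 2 + 1)) l ρ) k Fm.bot :=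
    fun k hk => h5.2 k (hk.weak fun _ hψ => List.mem_cons_of_mem _ hψ)
  refine ⟨UU A₀ P (4 * κ) (b + 2) (2 ^ (b + 2 + 1)) l ρ, fun _ hψ => rob_UU hψ,
    fun _ hψ => A0_UU hψ, (h.w3 A₀ P _ _ _ hA hP).2.1 l ρ,
    ⟨(Std3 P (4 * κ) (b + 2) (2 ^ (b + 2 + 1)) (w0 A₀ P (4 * κ) (b + 2) (2 ^ (b + 2 + 1)))).op,
      fun ψ hψ v => ?_⟩, h5.2, a, by omega, h3⟩
  show Fm.Sat (Std3 P (4 * κ) (b + 2) (2 ^ (b + 2 + 1))
    (w0 A₀ P (4 * κ) (b + 2) (2 ^ (b + 2 + 1)))) ψ v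
  rcases List.mem_cons.1 hψ with hψ | hψ
  · rw [hψ]
    exact (Pool.Agent.T9h18.IP.sat_conAll3 _ _ _ _ hP _ v).2 h6
  · exact h5.1 ψ hψ v

end Pool.Agent.T9h88.IP
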