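import Pool.Agent.T9h88.IP.Codes

/-!
# Several levels: facts from more facts, the parts
-/

set_option autoImplicit false

namespace Pool.Agent.T9h88.IP

open Pool.Agent.TH672 (Fm Str upd num digits varStr LogK Pv)
open Pool.Agent.TH636.BC
open Pool.Agent.T9h6.BC (sz cl)
open Pool.Agent.T9h88.IO
open Pool.Agent.TH197.J1545 (sat_proves code_inj digits_num strs_cons)

attribute [local irreducible] Pool.Agent.TH636.BC.inst Pool.Agent.TH636.BC.code

variable {ι : Type} {Γ : ι → List Fml} {D : ι → CD} {f : ι → ℕ} {α β γ φ ψ χ : ι → Fml}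

theorem PP.flip (h : PP Γ f fun i => (α i).imp ((β i).imp (γ i))) :
    PP Γ f fun i => (β i).imp ((α i).imp (γ i)) := by
  refine PP.mp (PP.taut (.imp (.imp (T9h6.BC.pp 0) (.imp (T9h6.BC.pp 1) (T9h6.BC.pp 2)))
    (.imp (T9h6.BC.pp 1) (.imp (T9h6.BC.pp 0) (T9h6.BC.pp 2)))) ?_ h.sp.left h.sp.right.left
      h.sp.right.right h.sp.left fun _ _ => rfl) h
  intro S v; simp only [Fm.sat_imp]; tauto

theorem SP.and_right (h : SP f fun i => (φ i).and (ψ i)) : SP f ψ := by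
  obtain ⟨C, hC⟩ := h
  refine ⟨C, fun i => le_trans ?_ (hC i)⟩
  rw [T9h6.BC.sz_and]; omega

theorem PP.drop (hN : SNames) : ∀ (E : List (ι → At)) (X : ι → Fml),
    (∀ a ∈ E, PP Γ (fun i => (D i).L) fun i => (D i).χ.imp ((a i).ren (· + VB)).fm) →
    PP Γ (fun i => (D i).L) (fun i => (ctx (E.map (fun a => a i) ++ (D i).N)).imp (X i)) →
    PP Γ (fun i => (D i).L) fun i => (D i).χ.imp (X i)
  | [], _, _, h => h
  | a :: E, X, ha, h => by
    have h1 := ha a (List.mem_cons_self ..)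
    have hs : SP (fun i => (D i).L) fun i => ((a i).ren (· + VB)).fm.and
      (ctx (E.map (fun a => a i) ++ (D i).N)) := h.sp.left
    have h3 : PP Γ (fun i => (D i).L) fun i => ((a i).ren (· + VB)).fm.imp
        ((ctx (E.map (fun a => a i) ++ (D i).N)).imp (X i)) :=
      PP.exp (α := fun i => ((a i).ren (· + VB)).fm)
        (β := fun i => ctx (E.map (fun a => a i) ++ (D i).N)) h h1.sp.right (SP.and_right hs)
    have h5 := PP.flip (h1.trans h3)
    have h6 := PP.drop hN E (fun i => (D i).χ.imp (X i))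
      (fun a ha' => ha a (List.mem_cons_of_mem _ ha')) h5
    exact h6.s (PP.refl (sp_χ hN))

theorem sp_ctxE (hN : SNames) : ∀ (E : List (ι → At)),
    (∀ a ∈ E, SP (fun i => (D i).L) fun i => ((a i).ren (· + VB)).fm) →
    SP (fun i => (D i).L) fun i => ctx (E.map (fun a => a i) ++ (D i).N)
  | [], _ => sp_χ hN
  | a :: E, ha => (ha a (List.mem_cons_self ..)).and
      (sp_ctxE hN E fun b hb => ha b (List.mem_cons_of_mem _ hb))

/-- facts from a finite list of facts -/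
theorem PP.derE (hE : SEngine) (hN : SNames) {Cs : List Cl} (hOk : ∀ c ∈ Cs, c.Ok)
    (hΓ : ∀ i, ∀ c ∈ Cs, c.fm ∈ Γ i) (E : List (ι → At))
    (hEl : ∀ a ∈ E, ∀ i, (a i).lt (D i).L)
    (hEp : ∀ a ∈ E, PP Γ (fun i => (D i).L) fun i => (D i).χ.imp ((a i).ren (· + VB)).fm)
    (q : ι → At)
    (h : ∀ i, Der Cs (E.map (fun a => a i) ++ (D i).N) (D i).N.length (q i)) :
    PP Γ (fun i => (D i).L) fun i => (D i).χ.imp ((q i).ren (· + VB)).fm := by
  have h1 := PP.der' (D := D) hE hN hOk hΓ (fun i => E.map fun a => a i) (by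
    intro i b hb
    obtain ⟨a, ha, rfl⟩ := List.mem_map.1 hb
    exact hEl a ha i) (sp_ctxE hN E fun a ha => (hEp a ha).sp.right) q h
  exact PP.drop hN E _ hEp h1

/-- the same with one more hypothesis -/
theorem PP.derH (hE : SEngine) (hN : SNames) {Cs : List Cl} (hOk : ∀ c ∈ Cs, c.Ok)
    (hΓ : ∀ i, ∀ c ∈ Cs, c.fm ∈ Γ i) (E : List (ι → At))
    (hEl : ∀ a ∈ E, ∀ i, (a i).lt (D i).L)
    (hEp : ∀ a ∈ E, PP Γ (fun i => (D i).L) fun i => (D i).χ.imp ((a i).ren (· + VB)).fm)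
    (a₀ q : ι → At) (h0 : ∀ i, (a₀ i).lt (D i).L)
    (h1 : SP (fun i => (D i).L) fun i => ((a₀ i).ren (· + VB)).fm)
    (h : ∀ i, Der Cs (a₀ i :: (E.map (fun a => a i) ++ (D i).N)) (D i).N.length (q i)) :
    PP Γ (fun i => (D i).L) fun i => (D i).χ.imp
      (((a₀ i).ren (· + VB)).fm.imp ((q i).ren (· + VB)).fm) := by
  have sE : SP (fun i => (D i).L) fun i => ctx (E.map (fun a => a i) ++ (D i).N) :=
    sp_ctxE hN E fun a ha => (hEp a ha).sp.right
  have h2 := PP.der' (D := D) hE hN hOk hΓ (fun i => a₀ i :: E.map fun a : ι → At => a i) (by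
    intro i b hb
    rcases List.mem_cons.1 hb with hb | hb
    · rw [hb]; exact h0 i
    obtain ⟨a, ha, rfl⟩ := List.mem_map.1 hb
    exact hEl a ha i) (h1.and sE) q h
  have h3 : PP Γ (fun i => (D i).L) fun i => ((a₀ i).ren (· + VB)).fm.imp
      ((ctx (E.map (fun a => a i) ++ (D i).N)).imp ((q i).ren (· + VB)).fm) :=
    PP.exp (α := fun i => ((a₀ i).ren (· + VB)).fm)
      (β := fun i => ctx (E.map (fun a => a i) ++ (D i).N)) h2 h1 sE
  exact PP.drop hN E _ hEp (PP.flip h3)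

/-- the parts of the proof -/
structure Parts3 (A₀ : List Fml) (P : Fml) (κ b L : ℕ) : Prop where
  num : Numerates P
  tru : TrueSent A₀
  bL : 2 ^ (b + 1) ≤ b + L
  b2 : 2 ≤ b
  ded : SDed
  eng : SEngine
  elim : SElim
  names : SNames
  run : SRun
  all : SAll
  str : IO.SStr
  nums : IO.SNum
  proof : SProof
  script : SScript
  bf : MBF
  lnk : ALink
  w3 : W3
  w4 : W4
  w5 : W5
  w6 : W6
  w7 : W7
  w8 : W8
  w9 : W9
  ga : GrowA
  gb : GrowB
  gc : GrowC
  tr3 : ∀ (l : ℕ) (ρ : List Ent), l ≤ L → (∀ e ∈ ρ, Trust P b e.v e.i e.z) →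
    (∀ ψ ∈ UU A₀ P κ b L l ρ, ∀ w : ℕ → ℕ, Fm.Sat (Std3 P κ b L (w0 A₀ P κ b L)) ψ w) ∧
    ∀ k, ¬ Proves (Th P (UU A₀ P κ b L l ρ)) k Fm.bot

variable {A₀ : List Fml} {P : Fml} {κ b L l : ℕ} {ρ : List Ent}

/-- the entries of a chain are trusted -/
theorem Parts3.trust (h : Parts3 A₀ P κ b L) (hc : Chain A₀ P κ b L l ρ) :
    l ≤ L ∧ ∀ e ∈ ρ, Trust P b e.v e.i e.z := by
  induction hc with
  | zero => exact ⟨Nat.zero_le _, fun e he => absurd he List.not_mem_nil⟩
  | @succ l ρ m _ hl hcons ih =>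
    refine ⟨hl, fun e he => ?_⟩
    rcases List.mem_cons.1 he with he | he
    · subst he
      intro j _ _
      have e1 : fT P (eU A₀ P κ b L l ρ m).z =
          code (Th P (UU A₀ P κ b L (l + 1) (eU A₀ P κ b L l ρ m :: ρ))) :=
        (code_ThUUe m).symm
      rw [e1]
      exact noRef_of_cons h.proof hcons _
    · exact ih.2 e he

theorem Parts3.cons (h : Parts3 A₀ P κ b L) (hc : Chain A₀ P κ b L l ρ) :
    ∀ k, ¬ Proves (Th P (UU A₀ P κ b L l ρ)) k Fm.bot :=
  (h.tr3 l ρ (h.trust hc).1 (h.trust hc).2).2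

/-- a bound for the numbers in a list of entries -/
def bd (P : Fml) (ρ : List Ent) : ℕ := (ρ.map fun e => e.v + e.i + e.m + e.z + fT P e.z).sum

theorem le_bd {e : Ent} (h : e ∈ ρ) : e.v + e.i + e.m + e.z + fT P e.z ≤ bd P ρ :=
  List.single_le_sum (by simp) _ (List.mem_map_of_mem (f := fun e : Ent =>
    e.v + e.i + e.m + e.z + fT P e.z) h)

/-- entries of the chain as facts -/
def trAt (e : Ent) : At := o3 iTr e.v e.i e.z

theorem Parts3.use (h : Parts3 A₀ P κ b L) (e : Ent) (he : ∀ i, e.ax ∈ Γ i)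
    (hM : ∀ i, e.v + e.i + e.m + e.z ≤ (D i).M) :
    PP Γ (fun i => (D i).L) fun i => (D i).χ.imp ((trAt e).ren (· + VB)).fm := by
  have u1 := h.w4.1 Γ D (fun _ => e) (fun i => by have := hM i; omega)
    (fun i => by have := hM i; omega) (fun i => by have := hM i; omega)
    (fun i => by have := hM i; omega)
  have u2 : PP Γ (fun i => (D i).L) fun _ => e.ax :=
    PP.const (Γ₀ := [e.ax]) (Proves.ax (List.mem_cons_self ..)) fun i ψ hψ => by
      rw [List.mem_singleton.1 hψ]; exact he i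
  exact u1.s (u2.k (sp_χ h.names))

end Pool.Agent.T9h88.IP
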