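import Pool.Agent.T9h88.IP.Defs

/-!
# Several levels: the statements of the parts
-/

set_option autoImplicit false

namespace Pool.Agent.T9h88.IP

open Pool.Agent.TH672 (Fm Str upd num digits varStr LogK Pv)
open Pool.Agent.TH636.BC
open Pool.Agent.T9h6.BC (sz cl)
open Pool.Agent.T9h88.IO

/-- the clauses are true -/
def V3 : Prop := ∀ (P : Fml) (κ b L w₀ : ℕ), ∀ c ∈ cls3 P κ b L, ClTr3 P κ b L w₀ c

/-- (W1) truth of the clauses -/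
def W1 : Prop := VTree → VAll → VStr → VNum → V3

/-- (W2) truth of the theories -/
def W2 : Prop := V3 → ∀ (A₀ : List Fml) (P : Fml) (κ b L l : ℕ) (ρ : List Ent),
  TrueSent A₀ → Numerates P → ScriptC κ → l ≤ L → (∀ e ∈ ρ, Trust P b e.v e.i e.z) →
  (∀ ψ ∈ UU A₀ P (4 * κ) b L l ρ, ∀ w : ℕ → ℕ,
    Fm.Sat (Std3 P (4 * κ) b L (w0 A₀ P (4 * κ) b L)) ψ w) ∧
  ∀ k, ¬ Proves (Th P (UU A₀ P (4 * κ) b L l ρ)) k Fm.bot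

/-- (W3) the clauses are admissible, the theories are closed -/
def W3 : Prop := ∀ (A₀ : List Fml) (P : Fml) (κ b L : ℕ), TrueSent A₀ → Numerates P →
  (∀ c ∈ cls3 P κ b L, c.Ok) ∧
  (∀ (l : ℕ) (ρ : List Ent), ∀ ψ ∈ UU A₀ P κ b L l ρ, ψ.Closed) ∧
  (∀ Γ : List Fml, (conAll P Γ).Closed ∧ ∀ n, (conAt P Γ n).Closed)

/-- (W4) use and proof of the axioms of trust -/
def W4 : Prop :=
  (∀ {ι : Type} (Γ : ι → List Fml) (D : ι → CD) (e : ι → Ent),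
    (∀ i, (e i).v ≤ (D i).M) → (∀ i, (e i).i ≤ (D i).M) → (∀ i, (e i).m ≤ (D i).M) →
    (∀ i, (e i).z ≤ (D i).M) →
    PP Γ (fun i => (D i).L) fun i => (D i).χ.imp
      ((e i).ax.imp (n3 iTr (e i).v (e i).i (e i).z))) ∧
  (∀ {ι : Type} (Γ : ι → List Fml) (D : ι → CD) (e : ι → Ent), (∀ i, ∀ ψ ∈ robinson, ψ ∈ Γ i) →
    (∀ i, (e i).v ≤ (D i).M) → (∀ i, (e i).i ≤ (D i).M) → (∀ i, (e i).m ≤ (D i).M) →
    (∀ i, (e i).z ≤ (D i).M) →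
    PP Γ (fun i => (D i).L) fun i => (D i).χ.imp
      ((n3 iTr (e i).v (e i).i (e i).z).imp (e i).ax))

/-- (W5) use of the axiom `Jl` -/
def W5 : Prop := ∀ {ι : Type} (Γ Δ : ι → List Fml) (D : ι → CD) (P : Fml) (L l l' : ℕ)
  (ξ : ι → Fml), Numerates P → (∀ i, ∀ ψ ∈ robinson, ψ ∈ Γ i) → (∀ i, Jl P L l ∈ Γ i) →
  (∀ i, L ≤ (D i).M) → (∀ i, l ≤ (D i).M) → (∀ i, l' ≤ (D i).M) →
  (∀ i, code (Δ i) ≤ (D i).M) → (∀ i, ∀ x < VB, ¬ (ξ i).Free x) →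
  PP Γ (fun i => (D i).L) (fun i => (D i).χ.imp (o1 (iK L) (L + VB)).fm) →
  PP Γ (fun i => (D i).L) (fun i => (D i).χ.imp (n2 iLt l l')) →
  PP Γ (fun i => (D i).L) (fun i => (D i).χ.imp (n2 iLe l' L)) →
  PP Γ (fun i => (D i).L) (fun i => (D i).χ.imp ((ξ i).imp (n2 iGd l' (code (Δ i))))) →
  PP Γ (fun i => (D i).L) fun i => (D i).χ.imp ((ξ i).imp (conAll P (Δ i)))

/-- (W6) use of the axiom `Ax3` -/
def W6 : Prop := ∀ {ι : Type} (Γ : ι → List Fml) (D : ι → CD) (v l z t r s y : ι → ℕ),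
  (∀ i, Ax3 ∈ Γ i) → (∀ i, v i ≤ (D i).M) → (∀ i, l i ≤ (D i).M) → (∀ i, z i ≤ (D i).M) →
  (∀ i, t i ≤ (D i).M) → (∀ i, r i ≤ (D i).M) → (∀ i, s i ≤ (D i).M) → (∀ i, y i ≤ (D i).M) →
  PP Γ (fun i => (D i).L) (fun i => (D i).χ.imp (n2 iD2 (z i) (t i))) →
  PP Γ (fun i => (D i).L) (fun i => (D i).χ.imp (n3 iPS (l i) (r i) (s i))) →
  PP Γ (fun i => (D i).L) (fun i => (D i).χ.imp (n3 iPG (l i) (s i) (y i))) →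
  PP Γ (fun i => (D i).L) (fun i => (D i).χ.imp (n2 iOk2 (t i) (r i))) →
  PP Γ (fun i => (D i).L) (fun i => (D i).χ.imp (n3 iTr (v i) (l i) (z i)).neg) →
  PP Γ (fun i => (D i).L) fun i => (D i).χ.imp (n2 iC (v i) (y i))

/-- (W7) use of the axiom about the code of the base theory -/
def W7 : Prop := ∀ {ι : Type} (Γ : ι → List Fml) (D : ι → CD) (z w : ι → ℕ),
  (∀ i, inst 29 (z i) γ0 ∈ Γ i) → (∀ i, z i ≤ (D i).M) → (∀ i, w i ≤ (D i).M) →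
  PP Γ (fun i => (D i).L) (fun i => (D i).χ.imp (n2 iAf (z i) (w i))) →
  PP Γ (fun i => (D i).L) fun i => (D i).χ.imp (o1 iGB (w i + VB)).fm

/-- (W8) facts -/
def W8 : Prop := IO.SStr → IO.SNum → ∀ (P : Fml) (κ b L : ℕ) (Cs : List Cl) (N N' : List At)
  (ν : Tree → ℕ) (M K : ℕ), (∀ c ∈ cls3 P κ b L, c ∈ Cs) → Ctx N ν M K → (∀ p ∈ N, p ∈ N') →
  (∀ j i : ℕ, tw j (b + i + 1) ≤ M →
    Der Cs N' N.length (o3 iPG i (tw j (b + i + 1)) (tw j (b + i)))) ∧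
  (∀ j i : ℕ, tw (j + 1) (b + i + 1) ≤ M →
    Der Cs N' N.length (o3 iPS i (tw j (b + i + 1)) (tw (j + 1) (b + i + 1)))) ∧
  (∀ (w₀ l : ℕ) (ρ : List Ent), gd P L w₀ l ρ ≤ M → o1 iGB w₀ ∈ N' →
    (∀ e ∈ ρ, o3 iTr e.v e.i e.z ∈ N') → Der Cs N' N.length (o2 iGd l (gd P L w₀ l ρ))) ∧
  (L ≤ M → Der Cs N' N.length (o1 (iK L) L))

/-- (W9) the next axiom -/
def W9 : Prop := W3 → ∀ (A₀ : List Fml) (P : Fml) (κ b L l : ℕ) (ρ : List Ent),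
  TrueSent A₀ → Numerates P → ∃ k, Proves (UU A₀ P κ b L l ρ) k (Jl P L (l + 1))

/-- (W10a) -/
def GrowA : Prop := ∀ C₀ C a : ℕ, ∃ j₀, ∀ j ≥ j₀,
  pb C (tw (j + 1) (a + 2) + 2 + 4 ^ (pb C₀ (2 * tw j (a + 2)) + 1)) ≤ tw (j + 1) (a + 3)

/-- (W10b) -/
def GrowB : Prop := ∀ C₀ C b L c : ℕ, 2 ^ (b + 1) ≤ b + L → ∃ j₀, ∀ j ≥ j₀,
  pb C (tw (j + 1) (b + L) + 2 + 4 ^ (pb C₀ (c + tw (j + 1) b) + 1)) ≤ tw (j + 1) (b + L + 2)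

/-- (W10c) -/
def GrowC : Prop := (∀ j ≥ 2, ∀ a ≥ 1, (2 ^ (tw j a / 4)) ^ 4 = tw (j + 1) a) ∧
  (∀ j ≥ 2, ∀ a ≥ 1, tw j a ≤ tw j (a + 1) / 4) ∧
  (∀ i a, a ≤ tw i a) ∧ (∀ i a, i ≤ tw i a) ∧ (∀ i a b, a ≤ b → tw i a ≤ tw i b) ∧
  (∀ a, StrictMono fun i => tw i a)

end Pool.Agent.T9h88.IP
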