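import Pool.Agent.T9h88.IP.Climb

/-!
# Several levels: the step
-/

set_option autoImplicit false

namespace Pool.Agent.T9h88.IP

open Pool.Agent.TH672 (Fm Str upd num digits varStr LogK Pv)
open Pool.Agent.TH636.BC
open Pool.Agent.T9h6.BC (sz cl)
open Pool.Agent.T9h88.IO
open Pool.Agent.TH197.J1545 (sat_proves code_inj digits_num strs_cons)

attribute [local irreducible] Pool.Agent.TH636.BC.inst Pool.Agent.TH636.BC.code

variable {A₀ : List Fml} {P : Fml} {κ b L : ℕ}

theorem tw_succ (j a : ℕ) : tw (j + 1) a = 2 ^ tw j a := by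
  simp only [tw, Function.iterate_succ_apply']

/-- If no theory of the next level is consistent, then the theory is as required. -/
theorem Parts3.step (h : Parts3 A₀ P κ b L) {l : ℕ} {ρ : List Ent} (hc : Chain A₀ P κ b L l ρ)
    (hl : l < L) (hT : ∀ m, ∃ k,
      Proves (Th P (UU A₀ P κ b L (l + 1) (eU A₀ P κ b L l ρ m :: ρ))) k Fm.bot) (N : ℕ) :
    ∃ j ≥ N, ∀ n ≤ tw j (b + l - 1), Proves (UU A₀ P κ b L l ρ) (tw j (b + l - 1 + 3))
      (conAt P (Th P (UU A₀ P κ b L l ρ)) n) := by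
  obtain ⟨C₀, hBF⟩ := h.bf h.run h.all h.str
  obtain ⟨w1, w2, w3, w4, w5, w6⟩ := h.gc
  have hb2 := h.b2
  obtain ⟨a, ha⟩ : ∃ a, b + l = a + 1 := ⟨b + l - 1, by omega⟩
  have ha1 : 1 ≤ a := by omega
  set v := vU A₀ P κ b L l ρ with hv
  set G := UU A₀ P κ b L l ρ with hG
  set W := w0 A₀ P κ b L with hW
  have hcv : code (Th P G) = v := rfl
  let en : ℕ → Ent := fun m => eU A₀ P κ b L l ρ m
  let A' : ℕ → List Fml := fun m => UU A₀ P κ b L (l + 1) (en m :: ρ)
  let z : ℕ → ℕ := fun m => zU A₀ P κ b L l ρ m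
  let t : ℕ → ℕ := fun m => fT P (z m)
  -- refutations
  have hr : ∀ m, ∃ r, ∃ τ : Tree, τ.size ≤ r ∧ ¬ Ok0 (encL (Th P (A' m))) τ := by
    intro m
    obtain ⟨κ', hs⟩ := h.script
    obtain ⟨k, π, h1, _⟩ := hT m
    obtain ⟨τ, _, h2⟩ := hs _ π h1
    exact ⟨τ.size, τ, le_rfl, h2⟩
  classical
  let r : ℕ → ℕ := fun m => Nat.find (hr m)
  have r1 : ∀ m, ∃ τ : Tree, τ.size ≤ r m ∧ ¬ Ok0 (encL (Th P (A' m))) τ := fun m =>
    Nat.find_spec (hr m)
  have hct : ∀ m, code (Th P (A' m)) = t m := fun m => code_ThUUe m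
  have hca : ∀ m, code (A' m) = fA (z m) := fun m => code_UUe m
  have r2 : ∀ m n, n < r m → NoRef (t m) n := by
    intro m n hn Γ hΓ τ hτ
    rw [← hct] at hΓ
    rw [code_inj hΓ]
    by_contra hτ'
    exact Nat.find_min (hr m) hn ⟨τ, hτ, hτ'⟩
  have hmt : ∀ m, m ≤ t m := fun m =>
    (le_zU m).trans ((le_fA _).trans (fA_le_fT P _))
  -- the scale
  let sc : ℕ → ℕ := fun j => tw j (a + 2)
  have scm : StrictMono sc := w6 (a + 2)
  have hsc : ∀ m, ∃ i, max (r m) (t m) ≤ sc i := fun m => ⟨_, scm.le_apply⟩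
  let jj : ℕ → ℕ := fun m => Nat.find (hsc m) - 1
  have j1 : ∀ m, sc 0 < m → max (r m) (t m) ≤ sc (jj m + 1) ∧ sc (jj m) < max (r m) (t m) := by
    intro m hm
    have h0 : 0 < Nat.find (hsc m) := by
      rw [Nat.find_pos]
      have := hmt m
      have h2 : t m ≤ max (r m) (t m) := le_max_right _ _
      omega
    have e : jj m + 1 = Nat.find (hsc m) := by
      show Nat.find (hsc m) - 1 + 1 = _
      omega
    constructor
    · rw [e]; exact Nat.find_spec (hsc m)
    · have h3 := Nat.find_min (hsc m) (m := jj m) (by omega)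
      omega
  let nn : ℕ → ℕ := fun j => 2 ^ (tw j (a + 1) / 4)
  have hpw : ∀ j ≥ 2, nn j ^ 4 = tw (j + 1) (a + 1) := fun j hj => w1 j hj (a + 1) (by omega)
  have htn : ∀ j ≥ 2, tw (j + 1) a ≤ nn j := fun j hj => by
    rw [tw_succ]
    exact Nat.pow_le_pow_right (by norm_num) (w2 j hj a ha1)
  have hjn : ∀ j ≥ 2, j + 1 ≤ nn j := fun j hj => (w4 (j + 1) a).trans (htn j hj)
  -- the parameters
  let c₀ := v + κ + bd P ρ + W + L + l + 2
  let ι := {p : ℕ × ℕ // sc (c₀ + 1) ≤ p.1 ∧ v ≤ p.2 ∧ p.2 ≤ nn (jj p.1)}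
  have hm0 : ∀ i : ι, sc 0 < i.1.1 := fun i => lt_of_lt_of_le (scm (by omega)) i.2.1
  have hjj : ∀ (m c : ℕ), sc 0 < m → sc (c + 1) ≤ m → c ≤ jj m := by
    intro m c hm hc
    by_contra hlt
    have h1 := (j1 m hm).1
    have h2 := scm.monotone (show jj m + 1 ≤ c by omega)
    have h3 := scm (Nat.lt_succ_self c)
    have h4 := hmt m
    have h5 : t m ≤ max (r m) (t m) := le_max_right _ _
    have h6 : sc (Nat.succ c) = sc (c + 1) := rfl
    omega
  have hjc : ∀ i : ι, c₀ ≤ jj i.1.1 := fun i => hjj i.1.1 c₀ (hm0 i) i.2.1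
  have hj2 : ∀ i : ι, 2 ≤ jj i.1.1 := fun i => by have := hjc i; omega
  let D : ι → CD := fun i =>
    ⟨(h.names.1 (tw (jj i.1.1 + 1) (a + 2)) (pb C₀ (2 * tw (jj i.1.1) (a + 2)))).choose,
     (h.names.1 (tw (jj i.1.1 + 1) (a + 2))
       (pb C₀ (2 * tw (jj i.1.1) (a + 2)))).choose_spec.choose, _, _,
     (h.names.1 (tw (jj i.1.1 + 1) (a + 2))
       (pb C₀ (2 * tw (jj i.1.1) (a + 2)))).choose_spec.choose_spec⟩
  have hDM : ∀ i, (D i).M = tw (jj i.1.1 + 1) (a + 2) := fun _ => rfl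
  have hDK : ∀ i, (D i).K = pb C₀ (2 * tw (jj i.1.1) (a + 2)) := fun _ => rfl
  have brt : ∀ i : ι, max (r i.1.1) (t i.1.1) ≤ (D i).M := fun i => (j1 i.1.1 (hm0 i)).1
  have br : ∀ i : ι, r i.1.1 ≤ (D i).M := fun i => (le_max_left _ _).trans (brt i)
  have bt : ∀ i : ι, t i.1.1 ≤ (D i).M := fun i => (le_max_right _ _).trans (brt i)
  have ba : ∀ i : ι, fA (z i.1.1) ≤ (D i).M := fun i => (fA_le_fT P _).trans (bt i)
  have bz : ∀ i : ι, z i.1.1 ≤ (D i).M := fun i => (le_fA _).trans (ba i)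
  have bm : ∀ i : ι, i.1.1 ≤ (D i).M := fun i => (hmt i.1.1).trans (bt i)
  have by' : ∀ i : ι, tw (jj i.1.1 + 1) (a + 1) ≤ (D i).M := fun i => by
    rw [hDM]; exact w5 _ _ _ (by omega)
  have bnn : ∀ i : ι, nn (jj i.1.1) ≤ (D i).M := fun i => by
    refine le_trans ?_ (by' i)
    rw [← hpw _ (hj2 i)]
    exact Nat.le_self_pow (by norm_num) _
  have bn : ∀ i : ι, i.1.2 ≤ (D i).M := fun i => i.2.2.2.trans (bnn i)
  have bc : ∀ i : ι, c₀ ≤ (D i).M := fun i => by
    have := hjc i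
    have := w4 (jj i.1.1 + 1) (a + 2)
    rw [hDM]; omega
  have bv : ∀ i : ι, v ≤ (D i).M := fun i => by have := bc i; omega
  have bs : ∀ i : ι, tw (jj i.1.1) (a + 2) ≤ (D i).M := fun i =>
    scm.monotone (Nat.le_succ (jj i.1.1))
  have bw : ∀ i : ι, W ≤ (D i).M := fun i => by have := bc i; omega
  have bl : ∀ i : ι, l ≤ (D i).M := fun i => by have := bc i; omega
  have bL' : ∀ i : ι, L ≤ (D i).M := fun i => by have := bc i; omega
  have be : ∀ i : ι, ∀ e ∈ ρ, e.v + e.i + e.m + e.z ≤ (D i).M := fun i e he => by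
    have h1 := bc i
    have h2 := le_bd (P := P) he
    omega
  have hOk := (h.w3 A₀ P κ b L h.tru h.num).1
  have hΓ : ∀ _ : ι, ∀ c ∈ cls3 P κ b L, c.fm ∈ G := fun _ c hc => cls_UU hc
  have hlt : ∀ i a, a ≤ (D i).M → a < (D i).L := fun i a ha => ha.trans_lt (D i).h.numlt
  have nums := fun i => h.nums h.str P κ (cls3 P κ b L) (D i).N (D i).ν (D i).M (D i).K
      (fun _ hc => clsB_cls3 hc) (D i).h
  have f8 := fun (i : ι) (N' : List At) (hN' : ∀ p ∈ (D i).N, p ∈ N') =>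
      h.w8 h.str h.nums P κ b L (cls3 P κ b L) (D i).N N' (D i).ν (D i).M (D i).K
      (fun _ hc => hc) (D i).h hN'
  -- facts
  have f1 : ∀ i : ι, Der (cls3 P κ b L) (D i).N (D i).N.length
      (o2 iAf (z0 A₀ P κ b L) W) := fun i => by
    have e : W = fA (z0 A₀ P κ b L) := w0_eq
    have := (nums i).1 (z0 A₀ P κ b L) (by rw [← e]; exact bw i)
    rwa [← e] at this
  have f2 : ∀ i : ι, Der (cls3 P κ b L) (D i).N (D i).N.length
      (o2 iD2 (z i.1.1) (t i.1.1)) := fun i => (nums i).2.1 (z i.1.1) (bt i)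
  have f3 : ∀ i : ι, Der (cls3 P κ b L) (D i).N (D i).N.length
      (o3 iPS l (tw (jj i.1.1) (a + 2)) (tw (jj i.1.1 + 1) (a + 2))) := fun i => by
    have := (f8 i (D i).N fun _ hp => hp).2.1 (jj i.1.1) l (by rw [ha])
    rwa [ha] at this
  have f4 : ∀ i : ι, Der (cls3 P κ b L) (D i).N (D i).N.length
      (o3 iPG l (tw (jj i.1.1 + 1) (a + 2)) (tw (jj i.1.1 + 1) (a + 1))) := fun i => by
    have := (f8 i (D i).N fun _ hp => hp).1 (jj i.1.1 + 1) l (by rw [ha])
    rwa [ha] at this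
  have f5 : ∀ i : ι, Der (cls3 P κ b L) (D i).N (D i).N.length
      (o2 iOk2 (t i.1.1) (tw (jj i.1.1) (a + 2))) := fun i => by
    have hj := (j1 i.1.1 (hm0 i)).2
    have hj' : tw (jj i.1.1) (a + 2) < max (r i.1.1) (t i.1.1) := hj
    by_cases hts : t i.1.1 ≤ tw (jj i.1.1) (a + 2)
    · have hrs : tw (jj i.1.1) (a + 2) < r i.1.1 := by
        rcases lt_max_iff.1 hj' with hj | hj
        · exact hj
        · omega
      have hno := r2 i.1.1 _ hrs
      have e1 : Der (cls3 P κ b L) (D i).N (D i).N.length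
          (o2 iC (t i.1.1) (tw (jj i.1.1) (a + 2))) := by
        have := hBF P κ (cls3 P κ b L) (D i).N (D i).ν (D i).M (D i).K
          (fun _ hc => clsB_cls3 hc) (D i).h
          (Th P (A' i.1.1)) (tw (jj i.1.1) (a + 2))
          (by rw [hct]; exact hno) (by rw [hct]; exact bt i) (bs i)
          (by rw [hct, hDK]; exact pb_le le_rfl (by omega))
        rwa [hct] at this
      exact Der.step' (Cs := cls3 P κ b L) (c := ⟨[o2 iC 0 1], o2 iOk2 0 1⟩) 0
        [t i.1.1, tw (jj i.1.1) (a + 2)] (clsB_cls3 (by simp [clsB, clNum]))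
        (Nat.zero_lt_of_lt (D i).h.numlt) (by
          intro y hy
          simp only [List.mem_cons, List.not_mem_nil, or_false] at hy
          rcases hy with rfl | rfl
          · exact hlt i _ (bt i)
          · exact hlt i _ (bs i)) (by
          intro p hp
          simp only [List.mem_cons, List.not_mem_nil, or_false] at hp
          rw [hp]; exact e1)
    · have e1 : Der (cls3 P κ b L) (D i).N (D i).N.length
          (o2 iLt (tw (jj i.1.1) (a + 2)) (t i.1.1)) :=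
        (nums i).2.2.2.2.2.1 _ _ (by omega) (bt i)
      exact Der.step' (Cs := cls3 P κ b L) (c := ⟨[o2 iLt 1 0], o2 iOk2 0 1⟩) 0
        [t i.1.1, tw (jj i.1.1) (a + 2)] (clsB_cls3 (by simp [clsB, clNum]))
        (Nat.zero_lt_of_lt (D i).h.numlt) (by
          intro y hy
          simp only [List.mem_cons, List.not_mem_nil, or_false] at hy
          rcases hy with rfl | rfl
          · exact hlt i _ (bt i)
          · exact hlt i _ (bs i)) (by
          intro p hp
          simp only [List.mem_cons, List.not_mem_nil, or_false] at hp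
          rw [hp]; exact e1)
  have f6 : ∀ i : ι, Der (cls3 P κ b L) (D i).N (D i).N.length
      (o2 iLk i.1.2 (tw (jj i.1.1 + 1) (a + 1))) := fun i => by
    have := (nums i).2.2.2.2.2.2.2 i.1.2 (nn (jj i.1.1))
      (by have := hjn _ (hj2 i); have := hjc i; omega) i.2.2.2
      ((hpw _ (hj2 i)).le.trans (by' i))
    rwa [hpw _ (hj2 i)] at this
  have f7 : ∀ i : ι, Der (cls3 P κ b L) (D i).N (D i).N.length (o2 iLe v i.1.2) :=
    fun i => (nums i).2.2.2.2.2.2.1 _ _ i.2.2.1 (bn i)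
  have f9 : ∀ i : ι, Der (cls3 P κ b L) (D i).N (D i).N.length (o2 iLt l (l + 1)) :=
    fun i => (nums i).2.2.2.2.2.1 _ _ (Nat.lt_succ_self l) (by have := bc i; omega)
  have f10 : ∀ i : ι, Der (cls3 P κ b L) (D i).N (D i).N.length (o2 iLe (l + 1) L) :=
    fun i => (nums i).2.2.2.2.2.2.1 _ _ hl (bL' i)
  have f11 : ∀ i : ι, Der (cls3 P κ b L) (D i).N (D i).N.length (o1 (iK L) L) :=
    fun i => (f8 i (D i).N fun _ hp => hp).2.2.2 (bL' i)
  have rob : ∀ _ : ι, ∀ ψ ∈ robinson, ψ ∈ G := fun _ _ hψ => rob_UU hψ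
  have exx : ∀ _ : ι, ∀ ψ ∈ ExAx, ψ ∈ G := fun _ _ hψ => ex_UU hψ
  have g := fun (q : ι → At)
      (hq : ∀ i, Der (cls3 P κ b L) (D i).N (D i).N.length (q i)) =>
    PP.der (Γ := fun _ : ι => G) (D := D) h.eng h.names hOk hΓ q hq
  have sχ := sp_χ (D := D) h.names
  -- the code of the base theory
  have pGB : PP (fun _ : ι => G) (fun i => (D i).L) fun i => (D i).χ.imp
      (o1 iGB (W + VB)).fm :=
    h.w7 (fun _ : ι => G) D (fun _ => z0 A₀ P κ b L) (fun _ => W)
      (fun _ => gam_UU) (fun i => by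
        have e : W = fA (z0 A₀ P κ b L) := w0_eq
        have := le_fA (z0 A₀ P κ b L)
        have := bw i
        omega) bw (g _ f1)
  -- trust implies the consistency of the theory
  have sξ : SP (fun i => (D i).L) fun i : ι => n3 iTr v l (z i.1.1) := by
    have u := (h.w4.1 (fun _ : ι => G) D (fun i => en i.1.1) bv bl bm bz).sp
    exact u.right.right
  have pGd : PP (fun _ : ι => G) (fun i => (D i).L) fun i => (D i).χ.imp
      ((n3 iTr v l (z i.1.1)).imp (n2 iGd (l + 1) (code (A' i.1.1)))) := by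
    refine PP.derH h.eng h.names hOk hΓ ((fun _ => o1 iGB W) :: ρ.map fun e _ => trAt e) ?_ ?_
      (fun i => o3 iTr v l (z i.1.1)) (fun i => o2 iGd (l + 1) (code (A' i.1.1))) ?_ sξ ?_
    · intro a' ha' i
      rcases List.mem_cons.1 ha' with ha' | ha'
      · rw [ha']
        exact ⟨hlt i _ (bw i), hlt i _ (bw i), hlt i _ (bw i), hlt i _ (bw i)⟩
      · obtain ⟨e, he, rfl⟩ := List.mem_map.1 ha'
        have := be i e he
        exact ⟨hlt i _ (by omega), hlt i _ (by omega), hlt i _ (by omega), hlt i _ (by omega)⟩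
    · intro a' ha'
      rcases List.mem_cons.1 ha' with ha' | ha'
      · rw [ha']; exact pGB
      · obtain ⟨e, he, rfl⟩ := List.mem_map.1 ha'
        exact h.use e (fun _ => ax_UU he) fun i => be i e he
    · exact fun i => ⟨hlt i _ (bv i), hlt i _ (bl i), hlt i _ (bz i), hlt i _ (bz i)⟩
    · intro i
      have e1 : code (A' i.1.1) = gd P L W (l + 1) (en i.1.1 :: ρ) := code_UU
      have e2 : code (A' i.1.1) ≤ (D i).M := by rw [hca]; exact ba i
      rw [e1] at e2 ⊢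
      refine (f8 i _ ?_).2.2.1 W (l + 1) (en i.1.1 :: ρ) e2 ?_ ?_
      · intro p hp
        exact List.mem_cons_of_mem _ (List.mem_append_right _ hp)
      · exact List.mem_cons_of_mem _ (List.mem_append_left _ (by simp))
      · intro e he
        rcases List.mem_cons.1 he with he | he
        · rw [he]; exact List.mem_cons_self ..
        · refine List.mem_cons_of_mem _ (List.mem_append_left _ ?_)
          simp only [List.map_cons, List.map_map, List.mem_cons, List.mem_map]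
          exact .inr ⟨e, he, rfl⟩
  have p1 : PP (fun _ : ι => G) (fun i => (D i).L) fun i => (D i).χ.imp
      ((n3 iTr v l (z i.1.1)).imp (conAll P (A' i.1.1))) := by
    refine h.w5 (fun _ : ι => G) (fun i => A' i.1.1) D P L l (l + 1)
      (fun i => n3 iTr v l (z i.1.1)) h.num rob (fun _ => Jl_UU) bL' bl
      (fun i => by have := bc i; omega) (fun i => by rw [hca]; exact ba i) ?_
      (g _ f11) (g _ f9) (g _ f10) pGd
    intro i x hx hf
    simp only [n3, At.fm, Fm.Free] at hf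
    omega
  have p2 := h.w4.1 (fun _ : ι => G) D (fun i => en i.1.1) bv bl bm bz
  have p3 : PP (fun _ : ι => G) (fun i => (D i).L) fun i =>
      (en i.1.1).ax.imp (conAll P (A' i.1.1)) := by
    obtain ⟨C, hC⟩ := PP.transr p2 p1
    obtain ⟨E, hE⟩ := h.elim
    refine ⟨(C + 2) * E, fun i => ?_⟩
    have c1 : (en i.1.1).ax.Closed := (h.w3 A₀ P κ b L h.tru h.num).2.1 (l + 1)
      (en i.1.1 :: ρ) _ (ax_UU (List.mem_cons_self ..))
    have c2 := ((h.w3 A₀ P κ b L h.tru h.num).2.2 (A' i.1.1)).1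
    exact (hE G (D i).N _ _ (rob i) (exx i) (D i).h.good (by
      intro x hx
      rcases hx with hx | hx
      · exact c1 x hx
      · exact c2 x hx) (hC i)).mono (pb_comp E C _)
  -- the refutation
  have sal : SP (fun i => (D i).L) fun i : ι => (en i.1.1).ax := p3.sp.left
  have p4 : PP (fun i : ι => (en i.1.1).ax :: G) (fun i => (D i).L) fun i =>
      conAll P (A' i.1.1) := by
    have a1 : PP (fun i : ι => (en i.1.1).ax :: G) (fun i => (D i).L) fun i =>
        (en i.1.1).ax.imp (conAll P (A' i.1.1)) :=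
      p3.weak fun _ _ hψ => List.mem_cons_of_mem _ hψ
    refine a1.mp ?_
    obtain ⟨C, hC⟩ := sal
    exact ⟨C, fun i => (Proves.ax (List.mem_cons_self ..)).mono (hC i)⟩
  have p5 : PP (fun i : ι => Th P (A' i.1.1)) (fun i => (D i).L) fun _ => Fm.bot := by
    obtain ⟨C, hC⟩ := h.proof
    refine ⟨(2 + 1 + 2) * C, fun i => ?_⟩
    obtain ⟨τ, l1, l2⟩ := r1 i.1.1
    refine (hC _ τ l2).mono (le_trans (pb_le le_rfl ?_) (pb_comp C (2 + 1) (D i).L))
    have a1 := strs_le_code (Th P (A' i.1.1))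
    rw [hct] at a1
    have a2 := hlt i _ (br i)
    have a3 := hlt i _ (bt i)
    have a4 := mul_pb 2 1 (D i).L
    have a5 := le_pb (C := 1) (D i).L le_rfl
    omega
  have p6 : PP (fun i : ι => Jl P L (l + 1) :: (en i.1.1).ax :: G) (fun i => (D i).L)
      fun _ => Fm.bot := by
    obtain ⟨C, hC⟩ := p5
    obtain ⟨E, hE⟩ := p4
    refine ⟨_, fun i => (Proves.cut (α := conAll P (A' i.1.1)) (fun ψ hψ => ?_) (hC i)
      ((hE i).weak fun _ hψ => List.mem_cons_of_mem _ hψ)).mono (pb_add C E _)⟩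
    rcases List.mem_cons.1 hψ with hψ | hψ
    · exact .inl hψ
    · rcases sub_UUe (en i.1.1) hψ with hψ | hψ | hψ
      · exact .inr (List.mem_cons_of_mem _ (hψ ▸ List.mem_cons_self ..))
      · exact .inr (hψ ▸ List.mem_cons_self ..)
      · exact .inr (List.mem_cons_of_mem _ (List.mem_cons_of_mem _ hψ))
  have p6' : PP (fun i : ι => (en i.1.1).ax :: G) (fun i => (D i).L) fun _ => Fm.bot := by
    obtain ⟨C, hC⟩ := p6
    obtain ⟨E, hE⟩ := h.w9 h.w3 A₀ P κ b L l ρ h.tru h.num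
    refine ⟨_, fun i => (Proves.cut (α := Jl P L (l + 1)) (fun ψ hψ => ?_) (hC i)
      ((hE.weak fun _ hψ => List.mem_cons_of_mem _ hψ).mono
        (const_le_pb E (D i).L))).mono (pb_add C E _)⟩
    exact List.mem_cons.1 hψ
  have p7 : PP (fun _ : ι => G) (fun i => (D i).L) fun i => (en i.1.1).ax.imp Fm.bot := by
    obtain ⟨C, hC⟩ := p6'
    obtain ⟨E, hE⟩ := sal
    obtain ⟨F, hF⟩ := h.ded
    refine ⟨(C + E + 1 + 2) * F, fun i => ?_⟩
    have c1 : (en i.1.1).ax.Closed := (h.w3 A₀ P κ b L h.tru h.num).2.1 (l + 1)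
      (en i.1.1 :: ρ) _ (ax_UU (List.mem_cons_self ..))
    refine (hF G _ _ _ c1 (hC i)).mono (le_trans (pb_le le_rfl ?_)
      (pb_comp F (C + E + 1) _))
    have := hE i
    have := pb_add C E (D i).L
    simp only at *
    omega
  have p8 : PP (fun _ : ι => G) (fun i => (D i).L) fun i => (D i).χ.imp
      (n3 iTr v l (z i.1.1)).neg := by
    have a1 := h.w4.2 (fun _ : ι => G) D (fun i => en i.1.1) rob bv bl bm bz
    exact PP.transr a1 (PP.k sχ p7)
  have p9 := h.w6 (fun _ : ι => G) D (fun _ => v) (fun _ => l) (fun i => z i.1.1)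
    (fun i => t i.1.1) (fun i => tw (jj i.1.1) (a + 2))
    (fun i => tw (jj i.1.1 + 1) (a + 2)) (fun i => tw (jj i.1.1 + 1) (a + 1))
    (fun _ => ax3_UU) bv bl bz bt bs (fun _ => le_rfl) by' (g _ f2) (g _ f3) (g _ f4)
    (g _ f5) p8
  have fin := h.lnk (fun _ : ι => G) (fun _ => Th P G) D P
    (fun i => i.1.2) (fun i => tw (jj i.1.1 + 1) (a + 1)) h.num rob exx
    (fun _ => link_UU) bv bn by' (g _ f7) (g _ f6) p9
  obtain ⟨C, hC⟩ := fin
  obtain ⟨c₁, hc₁⟩ := conAt_small' h.num ((h.w3 A₀ P κ b L h.tru h.num).2.2 (Th P G)).2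
    (h.cons hc) (A := G) (fun _ hψ => rob_UU hψ) v
  obtain ⟨j₀, hj⟩ := h.ga C₀ C a
  let J := j₀ + c₀ + N + c₁ + 1
  have hm₀ : sc 0 < sc (J + 1) := scm (by omega)
  have hJ : J ≤ jj (sc (J + 1)) := hjj _ J hm₀ le_rfl
  have hsz := hj (jj (sc (J + 1))) (by omega)
  have ea : b + l - 1 = a := by omega
  rw [ea]
  refine ⟨jj (sc (J + 1)) + 1, by omega, fun n hn => ?_⟩
  by_cases hnt : n < v
  · refine (hc₁ n hnt).mono ?_
    have := w4 (jj (sc (J + 1)) + 1) (a + 3)
    omega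
  · let i₀ : ι := ⟨(sc (J + 1), n), scm.monotone (by omega), by omega,
      hn.trans (htn _ (by omega))⟩
    exact (hC i₀).mono ((pb_le le_rfl (D i₀).h.len).trans hsz)

/-- The dichotomy. -/
theorem Parts3.main (h : Parts3 A₀ P κ b L) :
    ∃ (a l : ℕ) (ρ : List Ent), b ≤ a + 1 ∧ Chain A₀ P κ b L l ρ ∧
      ∀ N : ℕ, ∃ j ≥ N, ∀ n ≤ tw j a, Proves (UU A₀ P κ b L l ρ) (tw j (a + 3))
        (conAt P (Th P (UU A₀ P κ b L l ρ)) n) := by
  by_contra hno
  have key : ∀ l ≤ L, ∃ ρ, Chain A₀ P κ b L l ρ := by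
    intro l
    induction l with
    | zero => exact fun _ => ⟨[], .zero⟩
    | succ l ih =>
      intro hl
      obtain ⟨ρ, hc⟩ := ih (by omega)
      by_contra hn
      apply hno
      refine ⟨b + l - 1, l, ρ, by omega, hc, h.step hc (by omega) fun m => ?_⟩
      by_contra hm
      push Not at hm
      exact hn ⟨_, .succ m hc (by omega) hm⟩
  obtain ⟨ρ, hc⟩ := key L le_rfl
  exact hno ⟨b + L - 1, L, ρ, by omega, hc, h.fin hc⟩

end Pool.Agent.T9h88.IP
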